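import Pool.Agent.H446.AP12.AuxQ

/-!
# The auxiliary polynomial with weights
-/

set_option autoImplicit false

namespace Pool.Agent.H446.AP13

open Finset MvPolynomial
open Pool.Agent.H446.AP (Orb mm)
open Pool.Agent.H446.AP6 (IsPl)
open Pool.Agent.H446.AP10
open Pool.Agent.H446.AP11
open Pool.Agent.H446.AP12

/-- The affine space. -/
noncomputable abbrev D0 (d : ℕ) : Dat d := ⟨d, id, Function.injective_id, 1, fun _ => 0, 0, rfl, 1, fun i _ _ => X i⟩

lemma bernW {d x L : ℕ} (hx : x ≤ L) (hL : 0 < L) :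
    (L : ℝ) ^ d * (1 - d * ((x : ℝ) / L)) ≤ ((L - x : ℕ) : ℝ) ^ d := by
  have hL' : (0 : ℝ) < L := by exact_mod_cast hL
  have h1 : (x : ℝ) / L ≤ 1 := by
    rw [div_le_one hL']
    exact_mod_cast hx
  have h2 := one_add_mul_le_pow (a := -((x : ℝ) / L)) (by linarith) d
  have h4 : ((L - x : ℕ) : ℝ) = L * (1 + -((x : ℝ) / L)) := by
    rw [Nat.cast_sub hx]
    field_simp
    ring
  rw [h4, mul_pow]
  have h6 : 0 < (L : ℝ) ^ d := pow_pos hL' d
  nlinarith [mul_le_mul_of_nonneg_left h2 h6.le]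

/-- The exponents. -/
noncomputable def kw (L c d : ℕ) (r : ℝ) (p : ℕ) : ℕ := ⌊r * L / ((d + 1) * (c * p))⌋₊

/-- The logarithm of the bound for the coefficients. -/
noncomputable def LamW (Q : Finset ℕ) (L c d : ℕ) (r : ℕ → ℝ) : ℝ :=
  ∑ p ∈ Q, r p / 2 * ((kw L c d (r p) p : ℝ) + 1) * Real.log p

lemma kw_le {L c d p : ℕ} {r : ℝ} (hc : 0 < c) (hp : 0 < p) (hr : 0 ≤ r) :
    (kw L c d r p : ℝ) * ((d + 1) * (c * p)) ≤ r * L := by
  have hc' : (0 : ℝ) < c := by exact_mod_cast hc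
  have hp' : (0 : ℝ) < p := by exact_mod_cast hp
  have h1 : (kw L c d r p : ℝ) ≤ r * L / ((d + 1) * (c * p)) := Nat.floor_le (by positivity)
  rwa [le_div_iff₀ (by positivity)] at h1

lemma lt_kw {L c d p : ℕ} {r : ℝ} : r * L / ((d + 1) * (c * p)) < (kw L c d r p : ℝ) + 1 := Nat.lt_floor_add_one _

lemma card_ineqW (Q : Finset ℕ) (hQ : ∀ p ∈ Q, p.Prime) {d L c : ℕ} (hL : 0 < L) (hc : 0 < c) {r : ℕ → ℝ}
    (hr : ∀ p ∈ Q, 0 ≤ r p ∧ r p ≤ 1) :
    ∏ p ∈ Q, p ^ (kw L c d (r p) p * (1 * L ^ d)) <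
      (⌊Real.exp (LamW Q L c d r)⌋₊ + 1) ^ (1 * L ^ d) *
        ∏ p ∈ Q, p ^ (∑ j ∈ range (kw L c d (r p) p), (L - (j + 1) * (c * p)) ^ d) := by
  set Λ := LamW Q L c d r with hΛ
  set B := ⌊Real.exp Λ⌋₊ with hB
  rw [one_mul]
  set N := L ^ d with hN
  have hN0 : 0 < N := by positivity
  have hN0' : (0 : ℝ) < N := by exact_mod_cast hN0
  have hL' : (0 : ℝ) < L := by exact_mod_cast hL
  have hc' : (0 : ℝ) < c := by exact_mod_cast hc
  have hp0 : ∀ p ∈ Q, p ≠ 0 := fun p hp => (hQ p hp).ne_zero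
  set k : ℕ → ℕ := fun p => kw L c d (r p) p with hk
  have hl0 : 0 < ∏ p ∈ Q, p ^ (k p * N) := Finset.prod_pos fun p hp => pow_pos (hQ p hp).pos _
  have hr0 : 0 < ∏ p ∈ Q, p ^ (∑ j ∈ range (k p), (L - (j + 1) * (c * p)) ^ d) :=
    Finset.prod_pos fun p hp => pow_pos (hQ p hp).pos _
  have hB1 : Λ < Real.log ((B : ℝ) + 1) := by
    rw [Real.lt_log_iff_exp_lt (by positivity)]
    exact Nat.lt_floor_add_one _
  have key : Real.log ((∏ p ∈ Q, p ^ (k p * N) : ℕ) : ℝ) <
      Real.log (((B + 1) ^ N *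
        ∏ p ∈ Q, p ^ (∑ j ∈ range (k p), (L - (j + 1) * (c * p)) ^ d) : ℕ) : ℝ) := by
    have h1 : Real.log ((∏ p ∈ Q, p ^ (k p * N) : ℕ) : ℝ) = ∑ p ∈ Q, (k p : ℝ) * N * Real.log p := by
      push_cast
      rw [Real.log_prod fun p hp => pow_ne_zero _ (by exact_mod_cast hp0 p hp)]
      refine Finset.sum_congr rfl fun p _ => ?_
      rw [Real.log_pow]
      push_cast
      ring
    have h2 : Real.log (((B + 1) ^ N *
        ∏ p ∈ Q, p ^ (∑ j ∈ range (k p), (L - (j + 1) * (c * p)) ^ d) : ℕ) : ℝ) =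
        N * Real.log ((B : ℝ) + 1) + ∑ p ∈ Q,
          (∑ j ∈ range (k p), ((L - (j + 1) * (c * p) : ℕ) : ℝ) ^ d) * Real.log p := by
      rw [Nat.cast_mul, Real.log_mul (by positivity) (by exact_mod_cast hr0.ne')]
      congr 1
      · push_cast
        rw [Real.log_pow]
      · rw [Nat.cast_prod, Real.log_prod fun p hp => by
          rw [Nat.cast_pow]
          exact pow_ne_zero _ (by exact_mod_cast hp0 p hp)]
        refine Finset.sum_congr rfl fun p _ => ?_
        rw [Nat.cast_pow, Real.log_pow, Nat.cast_sum]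
        congr 1
        exact Finset.sum_congr rfl fun j _ => Nat.cast_pow _ _
    have h3 : ∀ p ∈ Q, (k p : ℝ) * N - N * (r p / 2 * ((k p : ℝ) + 1)) ≤
        ∑ j ∈ range (k p), ((L - (j + 1) * (c * p) : ℕ) : ℝ) ^ d := by
      intro p hp
      have hpp : (0 : ℝ) < p := by exact_mod_cast (hQ p hp).pos
      have hkle : (k p : ℝ) * ((d + 1) * (c * p)) ≤ r p * L := kw_le hc (hQ p hp).pos (hr p hp).1
      have hd0 : (0 : ℝ) ≤ d := Nat.cast_nonneg d
      have hkL : (k p : ℝ) * (c * p) ≤ L := by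
        have h5 : (k p : ℝ) * (c * p) ≤ k p * ((d + 1) * (c * p)) := by
          refine mul_le_mul_of_nonneg_left ?_ (Nat.cast_nonneg _)
          nlinarith [mul_pos hc' hpp]
        have h6 : r p * L ≤ L := by nlinarith [(hr p hp).2]
        linarith
      have h4 : ∀ j ∈ range (k p), (N : ℝ) * (1 - d * (((j + 1 : ℕ) * (c * p) : ℝ) / L)) ≤
          ((L - (j + 1) * (c * p) : ℕ) : ℝ) ^ d := by
        intro j hj
        rw [mem_range] at hj
        have h5 : (j + 1) * (c * p) ≤ L := by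
          have h6 : ((j + 1 : ℕ) : ℝ) * (c * p) ≤ k p * (c * p) :=
            mul_le_mul_of_nonneg_right (by exact_mod_cast hj) (by positivity)
          have h7 := h6.trans hkL
          exact_mod_cast h7
        have h6 := bernW (d := d) h5 hL
        rw [hN]
        push_cast at h6 ⊢
        exact h6
      refine le_trans ?_ (Finset.sum_le_sum h4)
      have h5 : ∑ j ∈ range (k p), (N : ℝ) * (1 - d * (((j + 1 : ℕ) * (c * p) : ℝ) / L)) =
          k p * N - N * (d * (c * p) / L) * ∑ j ∈ range (k p), ((j + 1 : ℕ) : ℝ) := by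
        rw [Finset.mul_sum]
        have h6 : (k p : ℝ) * N = ∑ _j ∈ range (k p), (N : ℝ) := by
          rw [Finset.sum_const, card_range, nsmul_eq_mul]
        rw [h6, ← Finset.sum_sub_distrib]
        refine Finset.sum_congr rfl fun j _ => ?_
        field_simp
      have h6 : ∀ t : ℕ, ∑ j ∈ range t, ((j + 1 : ℕ) : ℝ) = t * (t + 1) / 2 := by
        intro t
        induction t with
        | zero => simp
        | succ t ih =>
          rw [Finset.sum_range_succ, ih]
          push_cast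
          ring
      rw [h5, h6]
      have h7 : (d * (c * p) / L : ℝ) * (k p * (k p + 1) / 2) ≤ r p / 2 * ((k p : ℝ) + 1) := by
        have h8 : (d * (c * p) : ℝ) * k p ≤ r p * L := by
          refine le_trans ?_ hkle
          have h9 : (d : ℝ) * (c * p) ≤ (d + 1) * (c * p) := by nlinarith [mul_pos hc' hpp]
          nlinarith [mul_le_mul_of_nonneg_right h9 (Nat.cast_nonneg (α := ℝ) (k p))]
        have h9 : (d * (c * p) / L : ℝ) * k p ≤ r p := by
          rw [div_mul_eq_mul_div, div_le_iff₀ hL']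
          exact h8
        have h10 : (0 : ℝ) ≤ (k p : ℝ) + 1 := by positivity
        nlinarith [mul_le_mul_of_nonneg_right h9 h10]
      nlinarith [mul_le_mul_of_nonneg_left h7 hN0'.le]
    rw [h1, h2]
    have h5 : ∑ p ∈ Q, ((k p : ℝ) * N - N * (r p / 2 * ((k p : ℝ) + 1))) * Real.log p ≤ ∑ p ∈ Q,
        (∑ j ∈ range (k p), ((L - (j + 1) * (c * p) : ℕ) : ℝ) ^ d) * Real.log p := by
      refine Finset.sum_le_sum fun p hp => mul_le_mul_of_nonneg_right (h3 p hp) ?_
      exact Real.log_nonneg (by exact_mod_cast (hQ p hp).one_lt.le)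
    have h6 : ∑ p ∈ Q, ((k p : ℝ) * N - N * (r p / 2 * ((k p : ℝ) + 1))) * Real.log p =
        ∑ p ∈ Q, (k p : ℝ) * N * Real.log p - N * Λ := by
      rw [hΛ, LamW, Finset.mul_sum, ← Finset.sum_sub_distrib]
      refine Finset.sum_congr rfl fun p _ => ?_
      ring
    have h7 := mul_lt_mul_of_pos_left hB1 hN0'
    linarith
  have h9 := (Real.log_lt_log_iff (by exact_mod_cast hl0) (by
    have : 0 < (B + 1) ^ N * ∏ p ∈ Q, p ^ (∑ j ∈ range (k p), (L - (j + 1) * (c * p)) ^ d) := by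
      positivity
    exact_mod_cast this)).1 key
  exact_mod_cast h9

end Pool.Agent.H446.AP13
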