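import Pool.Agent.H446.AP13.W1

/-!
# The vanishing of the weighted auxiliary polynomial
-/

set_option autoImplicit false

namespace Pool.Agent.H446.AP13

open Finset MvPolynomial
open Pool.Agent.H446.AP (Orb mm)
open Pool.Agent.H446.AP6 (IsPl)
open Pool.Agent.H446.AP10
open Pool.Agent.H446.AP11
open Pool.Agent.H446.AP12

lemma DL_pow {d D : ℕ} {f : MvPolynomial (Fin d) ℤ} (h : DL D f) (j : ℕ) : DL (j * D) (f ^ j) := by
  induction j with
  | zero =>
    rw [pow_zero, zero_mul]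
    exact DL.C 1
  | succ j ih =>
    have h1 := ih.mul h
    rw [pow_succ]
    have h2 : (j + 1) * D = j * D + D := by ring
    rw [h2]
    exact h1

lemma ev_D0 {d : ℕ} {k : Type*} [CommRing k] (z : Fin d → k) (v : Fin 1 → MvPolynomial (Fin d) ℤ) :
    (D0 d).ev z v = aeval z (v 0) := by
  unfold Dat.ev
  have h1 : ∀ l : Fin 1, aeval (z ∘ (D0 d).y) (v l) * mo z ((D0 d).ε l) = aeval z (v l) := by
    intro l
    have h2 : mo z ((D0 d).ε l) = 1 := by
      show mo z 0 = 1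
      unfold mo
      simp
    rw [h2, mul_one]
    rfl
  exact (Finset.sum_congr rfl fun l _ => h1 l).trans (Fintype.sum_unique _)

/-- **The auxiliary polynomial with weights.** -/
theorem stepW (d c : ℕ) (hc : 0 < c) : ∃ (C₂ : ℝ) (K : ℕ), 0 ≤ C₂ ∧ ∀ (F : ℕ → MvPolynomial (Fin d) ℤ) (Q : Finset ℕ)
      (x : ℕ) (r : ℕ → ℝ), 1 ≤ x → (∀ p ∈ Q, p.Prime ∧ p ≤ x ∧ DL (c * p) (F p) ∧
        MvPolynomial.map (Int.castRingHom (ZMod p)) (F p) ≠ 0) → (∀ p ∈ Q, 0 ≤ r p ∧ r p ≤ 1) →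
    ∃ R : MvPolynomial (Fin d) ℤ, R ≠ 0 ∧ R.totalDegree ≤ K * x ∧
      ∀ (K' : Type) [Field K'] [Algebra ℚ K'] [FiniteDimensional ℚ K'] (H : ℝ) (y : Fin d → K')
        (P : Fin d → Polynomial ℤ) (O : ℕ → Subring ℂ) (G : ℕ → Finset (K' →ₐ[ℚ] ℂ)), 0 ≤ H →
      (∀ i, Orb (P i) ∧ Real.log (mm (P i)) ≤ (P i).natDegree * H ∧ Polynomial.aeval (y i) (P i) = 0) →
      (∀ p ∈ Q, IsPl p (O p) ∧ ∀ s ∈ G p, (∀ i, s (y i) ∈ O p) ∧ ∃ t ∈ O p, aeval (fun i => s (y i)) (F p) = p * t) →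
      ∑ p ∈ Q, r p ^ 2 / 2 * (Real.log p / p) + C₂ * (H + 1) <
        ∑ p ∈ Q, r p * (((G p).card : ℝ) / Module.finrank ℚ K') * (Real.log p / p) →
        aeval y R = 0 := by
  classical
  obtain ⟨D₀, hD₀⟩ := exists_D 1 d (3 + d)
  refine ⟨(d + 1) * c * (d + 1), d * (D₀ + 1), by positivity, fun F Q x r hx1 hQ hr => ?_⟩
  set L := (D₀ + 1) * x with hLdef
  have hL : 0 < L := by positivity
  have hL' : (0 : ℝ) < L := by exact_mod_cast hL
  obtain ⟨D, hD⟩ : ∃ D, L = D + 1 := ⟨L - 1, by omega⟩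
  have hQp : ∀ p ∈ Q, p.Prime := fun p hp => (hQ p hp).1
  have hx1' : (1 : ℝ) ≤ x := by exact_mod_cast hx1
  set k : ℕ → ℕ := fun p => kw L c d (r p) p with hk
  let w : ℕ → ℕ → Fin 1 → MvPolynomial (Fin d) ℤ := fun p j _ => F p ^ j
  have hw1 : ∀ p ∈ Q, ∀ j l, DL (j * (c * p)) (w p j l) := fun p hp j l => DL_pow (hQ p hp).2.2.1 j
  have hw2 : ∀ p ∈ Q, ∀ j, ∃ l, MvPolynomial.map (Int.castRingHom (ZMod p)) (w p j l) ≠ 0 := fun p hp j => by
    have hfact : Fact p.Prime := ⟨hQp p hp⟩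
    refine ⟨0, ?_⟩
    show MvPolynomial.map (Int.castRingHom (ZMod p)) (F p ^ j) ≠ 0
    rw [map_pow]
    exact pow_ne_zero _ (hQ p hp).2.2.2
  have hDL : ∀ p ∈ Q, ∀ j (h : (Fin d → Fin (D + 1 - j * (c * p))) → ℤ) l, DL D (pol h * w p j l) := by
    intro p hp j h l i
    by_cases hL : D + 1 - j * (c * p) = 0
    · have h1 : pol h = 0 := by
        unfold pol
        refine Finset.sum_eq_zero fun a _ => ?_
        have := (a i).2
        omega
      rw [h1, zero_mul]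
      exact DL.zero i
    · have h1 : DL (D - j * (c * p)) (pol h) := DL_pol h fun _ _ => by omega
      have h2 := (h1.mul (hw1 p hp j l)) i
      omega
  have hcard : Fintype.card (Fin (D0 d).n × (Fin (D0 d).d → Fin (D + 1))) = 1 * (D + 1) ^ d := by
    rw [Fintype.card_prod, Fintype.card_fin, Fintype.card_fun, Fintype.card_fin, Fintype.card_fin]
  have hB := card_ineqW Q hQp (d := d) hL hc hr
  set Λ := LamW Q L c d r with hΛ
  rw [hD] at hB
  obtain ⟨b, hb0, hbB, hbp⟩ := pigeon (ι := Fin (D0 d).n × (Fin (D0 d).d → Fin (D + 1))) Q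
    (fun p hp => (hQp p hp).pos)
    k (fun p j => Fin d → Fin (D + 1 - j * (c * p))) (fun p j => mulBox (w p j))
    (fun p hp j h h0 => mulBox_inj (hQp p hp) (w p j) (hw2 p hp j) h (hDL p hp j h) h0) ⌊Real.exp Λ⌋₊ (by
      rw [hcard]
      have h1 : ∀ p ∈ Q, (∑ j ∈ range (k p), Fintype.card (Fin d → Fin (D + 1 - (j + 1) * (c * p)))) =
          ∑ j ∈ range (k p), (D + 1 - (j + 1) * (c * p)) ^ d := fun p _ =>
        Finset.sum_congr rfl fun j _ => by rw [Fintype.card_fun, Fintype.card_fin, Fintype.card_fin]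
      have h2 : ∀ p, k p = kw (D + 1) c d (r p) p := fun p => by rw [hk, hD]
      refine lt_of_le_of_lt (le_of_eq ?_) (lt_of_lt_of_eq hB ?_)
      · exact Finset.prod_congr rfl fun p _ => by rw [h2]
      · congr 1
        exact Finset.prod_congr rfl fun p hp => by rw [h1 p hp, h2])
  have hdiv : ∀ p ∈ Q, ∀ (O : Subring ℂ) (ω : Fin d → ℂ), (∀ i, ω i ∈ O) → (∃ t ∈ O, aeval ω (F p) = p * t) →
      ∃ y ∈ O, aeval ω (Rb (D0 d) b) = (p : ℂ) ^ k p * y := by
    intro p hp O ω hint ht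
    obtain ⟨t, htO, ht⟩ := ht
    obtain ⟨h, u, hbu⟩ := hbp p hp
    refine ⟨∑ j ∈ range (k p), aeval (ω ∘ (D0 d).y) (pol (h (j + 1))) * t ^ (j + 1) + EV (D0 d) (D + 1) ω u,
      O.add_mem (O.sum_mem fun j _ => O.mul_mem (aeval_mem _ (fun i => hint _) _) (O.pow_mem htO _))
        (EV_mem (D0 d) _ _ hint u), ?_⟩
    rw [aeval_Rb, hbu, map_add, map_sum, map_zsmul, mul_add, Finset.mul_sum]
    congr 1
    · refine Finset.sum_congr rfl fun j hj => ?_
      rw [mem_range] at hj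
      have h3 : EV (D0 d) (D + 1) ω (mulBox (w p (j + 1)) (h (j + 1))) =
          aeval (ω ∘ (D0 d).y) (pol (h (j + 1))) * (D0 d).ev ω (w p (j + 1)) :=
        EV_mulBox (D0 d) ω _ _ (hDL p hp (j + 1) (h (j + 1)))
      rw [map_zsmul, h3, ev_D0, zsmul_eq_mul]
      have h4 : aeval ω (w p (j + 1) 0) = (p : ℂ) ^ (j + 1) * t ^ (j + 1) := by
        show aeval ω (F p ^ (j + 1)) = _
        rw [map_pow, ht, mul_pow]
      rw [h4]
      push_cast
      have h2 : (p : ℂ) ^ k p = (p : ℂ) ^ (k p - (j + 1)) * (p : ℂ) ^ (j + 1) := by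
        rw [← pow_add]
        congr 1
        omega
      rw [h2]
      ring
    · rw [zsmul_eq_mul]
      push_cast
      ring
  have hR0 : Rb (D0 d) b ≠ 0 := by
    intro h0
    apply hb0
    funext t
    have h1 : (Rb (D0 d) b).coeff (expo (D0 d) t) = b t := by
      unfold Rb
      rw [coeff_sum, Finset.sum_eq_single t]
      · rw [coeff_monomial, if_pos rfl]
      · intro t' _ hne
        rw [coeff_monomial, if_neg]
        intro h2
        apply hne
        have h3 : ∀ s : Fin (D0 d).n × (Fin (D0 d).d → Fin (D + 1)), expo (D0 d) s = toF s.2 := by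
          intro s
          show (toF s.2).mapDomain id + 0 = toF s.2
          rw [Finsupp.mapDomain_id, add_zero]
        rw [h3, h3] at h2
        exact Prod.ext (Subsingleton.elim (α := Fin 1) _ _) (toF_inj h2)
      · intro h; exact absurd (mem_univ _) h
    rw [h0, coeff_zero] at h1
    exact h1.symm
  have hsupp : ∀ a ∈ (Rb (D0 d) b).support, ∀ i, a i ≤ D := by
    intro a ha i
    obtain ⟨t, rfl⟩ := support_Rb (D0 d) b ha
    have h1 := expo_le (D0 d) (E := 0) (fun l i => le_of_eq rfl) t i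
    rwa [add_zero] at h1
  refine ⟨Rb (D0 d) b, hR0, ?_, fun K' _ _ _ H y P O G hH hP hG hlt => ?_⟩
  · refine (totalDegree_le_of hsupp).trans ?_
    rw [mul_assoc, ← hLdef, hD]
    exact Nat.mul_le_mul_left _ (Nat.le_succ D)
  by_contra hne
  have hN0 : 0 < Module.finrank ℚ K' := Module.finrank_pos
  have hN0' : (0 : ℝ) < Module.finrank ℚ K' := by exact_mod_cast hN0
  have hval : ∀ (s : K' →ₐ[ℚ] ℂ) (f : MvPolynomial (Fin d) ℤ), s (aeval y f) = aeval (fun i => s (y i)) f := by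
    intro s f
    induction f using MvPolynomial.induction_on with
    | C a => rw [aeval_C, aeval_C, eq_intCast, eq_intCast, map_intCast]
    | add f g hf hg => rw [map_add, map_add, map_add, hf, hg]
    | mul_X f i hf => rw [map_mul, map_mul, map_mul, hf, aeval_X, aeval_X]
  have hBt : ∑ a ∈ (Rb (D0 d) b).support, |(((Rb (D0 d) b).coeff a : ℤ) : ℝ)| ≤ (L : ℝ) ^ d * Real.exp Λ := by
    refine (sum_coeff_Rb (D0 d) b hbB).trans ?_
    have h1 : (((D0 d).n * (D + 1) ^ (D0 d).d : ℕ) : ℝ) = (L : ℝ) ^ d := by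
      rw [hD]
      show ((1 * (D + 1) ^ d : ℕ) : ℝ) = _
      push_cast
      ring
    rw [h1]
    exact mul_le_mul_of_nonneg_left (Nat.floor_le (Real.exp_pos _).le) (by positivity)
  have h1 := nrmP hP (Rb (D0 d) b) hsupp hne hBt Q k G fun p hp => ⟨(hQ p hp).1, O p, (hG p hp).1, fun s hs => by
    rw [hval]
    obtain ⟨h2, h3⟩ := (hG p hp).2 s hs
    exact hdiv p hp (O p) _ h2 h3⟩
  rw [Fintype.card_fin, Real.log_mul (by positivity) (by positivity), Real.log_pow, Real.log_exp] at h1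
  set ρ : ℕ → ℝ := fun p => ((G p).card : ℝ) / Module.finrank ℚ K' with hρdef
  have hρ : ∀ p, 0 ≤ ρ p ∧ ρ p ≤ 1 := by
    intro p
    refine ⟨by positivity, ?_⟩
    rw [hρdef]
    beta_reduce
    rw [div_le_one hN0']
    have h3 : (G p).card ≤ Fintype.card (K' →ₐ[ℚ] ℂ) := Finset.card_le_univ _
    rw [AlgHom.card] at h3
    exact_mod_cast h3
  have hlog : ∀ p ∈ Q, 0 ≤ Real.log p := fun p hp => Real.log_nonneg (by exact_mod_cast (hQp p hp).one_lt.le)
  have hW : ∑ p ∈ Q, Real.log p ≤ 2 * x := by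
    refine le_trans (Finset.sum_le_sum_of_subset_of_nonneg (t := Pool.Agent.H446.AP.pr x) (fun p hp => ?_)
      fun p _ _ => Pool.Agent.H446.AP.logp_nonneg p) (Pool.Agent.H446.AP.theta_le (Nat.cast_nonneg x))
    exact (Pool.Agent.H446.AP.mem_pr (Nat.cast_nonneg x)).2 ⟨(hQ p hp).1, by exact_mod_cast (hQ p hp).2.1⟩
  have ha0 : (0 : ℝ) < (d + 1) * c := by
    have : (0 : ℝ) < c := by exact_mod_cast hc
    positivity
  -- the gain
  have h2 : ∀ p ∈ Q, L / ((d + 1) * c) * (r p * ρ p * (Real.log p / p) - r p ^ 2 / 2 * (Real.log p / p)) -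
      3 / 2 * Real.log p ≤ (k p : ℝ) * ρ p * Real.log p - r p / 2 * ((k p : ℝ) + 1) * Real.log p := by
    intro p hp
    have hp0 : (0 : ℝ) < p := by exact_mod_cast (hQp p hp).pos
    set X : ℝ := r p * L / ((d + 1) * (c * p)) with hX
    have hc' : (0 : ℝ) < c := by exact_mod_cast hc
    have h3 : (k p : ℝ) ≤ X := by
      rw [hX, le_div_iff₀ (by positivity)]
      exact kw_le hc (hQp p hp).pos (hr p hp).1
    have h4 : X < (k p : ℝ) + 1 := lt_kw
    have h5 : L / ((d + 1) * c) * (r p * ρ p * (Real.log p / p) - r p ^ 2 / 2 * (Real.log p / p)) =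
        X * (ρ p - r p / 2) * Real.log p := by
      rw [hX]
      field_simp
    rw [h5]
    have h6 : X * (ρ p - r p / 2) - 1 ≤ (k p : ℝ) * (ρ p - r p / 2) := by
      obtain ⟨h7, h8⟩ := hρ p
      obtain ⟨h9, h10⟩ := hr p hp
      rcases le_total 0 (ρ p - r p / 2) with h | h
      · nlinarith
      · nlinarith
    have h7 : X * (ρ p - r p / 2) - 3 / 2 ≤ (k p : ℝ) * ρ p - r p / 2 * ((k p : ℝ) + 1) := by
      have := (hr p hp).2
      nlinarith
    have h8 := mul_le_mul_of_nonneg_right h7 (hlog p hp)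
    linarith
  have h3 := Finset.sum_le_sum h2
  rw [Finset.sum_sub_distrib, Finset.sum_sub_distrib, ← Finset.mul_sum, ← Finset.mul_sum, Finset.sum_sub_distrib] at h3
  have h4 : ∑ p ∈ Q, r p / 2 * ((k p : ℝ) + 1) * Real.log p = Λ := rfl
  rw [h4] at h3
  have h5 : L / ((d + 1) * c) * ((d + 1) * c * (d + 1) * (H + 1)) <
      L / ((d + 1) * c) * (∑ p ∈ Q, r p * ρ p * (Real.log p / p) - ∑ p ∈ Q, r p ^ 2 / 2 * (Real.log p / p)) := by
    refine mul_lt_mul_of_pos_left ?_ (by positivity)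
    linarith
  have h6 : (L : ℝ) / ((d + 1) * c) * ((d + 1) * c * (d + 1) * (H + 1)) = L * (d + 1) * (H + 1) := by
    field_simp
  rw [h6] at h5
  have h7 : (d : ℝ) * Real.log L + 3 * x < L := by
    have h8 : (L : ℝ) = ((D₀ : ℝ) + 1) * x := by
      rw [hLdef]
      push_cast
      ring
    have hD0 : (0 : ℝ) ≤ D₀ := Nat.cast_nonneg _
    rw [h8, Real.log_mul (by positivity) (by positivity)]
    have h9 : Real.log x ≤ x - 1 := Real.log_le_sub_one_of_pos (by linarith)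
    have h10 : (d : ℝ) * Real.log x ≤ d * (x - 1) := mul_le_mul_of_nonneg_left h9 (Nat.cast_nonneg _)
    rw [Nat.cast_one, Real.log_one, zero_add] at hD₀
    have h11 : (d : ℝ) * Real.log ((D₀ : ℝ) + 1) ≤ (d * Real.log ((D₀ : ℝ) + 1)) * x :=
      le_mul_of_one_le_right (mul_nonneg (Nat.cast_nonneg _) (Real.log_nonneg (by linarith))) hx1'
    have h12 : (d * Real.log ((D₀ : ℝ) + 1) + (3 + d)) * x < ((D₀ : ℝ) + 1) * x :=
      mul_lt_mul_of_pos_right hD₀ (by linarith)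
    have h13 : (0 : ℝ) ≤ d := Nat.cast_nonneg _
    nlinarith
  have h8 : (D : ℝ) * (d * H) ≤ L * (d * H) := by
    refine mul_le_mul_of_nonneg_right ?_ (by positivity)
    rw [hD]
    push_cast
    linarith
  have h9 : (L : ℝ) * (d + 1) * (H + 1) = L * (d * H) + L * H + L * d + L := by ring
  have h10 : 0 ≤ (L : ℝ) * H := by positivity
  have h11 : 0 ≤ (L : ℝ) * d := by positivity
  linarith

end Pool.Agent.H446.AP13
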