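import Pool.Agent.H446.AP12.NoeQ

/-!
# Norms
-/

set_option autoImplicit false

namespace Pool.Agent.H446.AP13

open Finset MvPolynomial
open Pool.Agent.H446.AP10

variable {m : ℕ}

/-- The functions that vanish on the reduction modulo `p` outside of the zeros of `g`. -/
def Jp (𝔞 : Ideal (MvPolynomial (Fin m) ℤ)) (g : MvPolynomial (Fin m) ℤ) (p : ℕ) : Ideal (MvPolynomial (Fin m) ℤ) where
  carrier := {f | ∃ N : ℕ, g ^ N * f ∈ 𝔞 ⊔ Ideal.span {((p : ℕ) : MvPolynomial (Fin m) ℤ)}}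
  add_mem' := by
    rintro a b ⟨N, hN⟩ ⟨N', hN'⟩
    refine ⟨N + N', ?_⟩
    have h1 : g ^ (N + N') * (a + b) = g ^ N' * (g ^ N * a) + g ^ N * (g ^ N' * b) := by ring
    rw [h1]
    exact Ideal.add_mem _ (Ideal.mul_mem_left _ _ hN) (Ideal.mul_mem_left _ _ hN')
  zero_mem' := ⟨0, by rw [mul_zero]; exact Ideal.zero_mem _⟩
  smul_mem' := by
    rintro c a ⟨N, hN⟩
    refine ⟨N, ?_⟩
    have h1 : g ^ N * (c • a) = c * (g ^ N * a) := by rw [smul_eq_mul]; ring
    rw [h1]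
    exact Ideal.mul_mem_left _ _ hN

lemma mem_Jp {𝔞 : Ideal (MvPolynomial (Fin m) ℤ)} {g f : MvPolynomial (Fin m) ℤ} {p : ℕ} :
    f ∈ Jp 𝔞 g p ↔ ∃ N : ℕ, g ^ N * f ∈ 𝔞 ⊔ Ideal.span {((p : ℕ) : MvPolynomial (Fin m) ℤ)} := Iff.rfl

lemma le_Jp {𝔞 : Ideal (MvPolynomial (Fin m) ℤ)} {g f : MvPolynomial (Fin m) ℤ} {p : ℕ} (h : f ∈ 𝔞) : f ∈ Jp 𝔞 g p :=
  ⟨0, Ideal.mul_mem_left _ _ (Ideal.mem_sup_left h)⟩

lemma p_mem_Jp {𝔞 : Ideal (MvPolynomial (Fin m) ℤ)} {g : MvPolynomial (Fin m) ℤ} {p : ℕ} (f : MvPolynomial (Fin m) ℤ) :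
    ((p : ℕ) : MvPolynomial (Fin m) ℤ) * f ∈ Jp 𝔞 g p :=
  ⟨0, Ideal.mul_mem_left _ _ (Ideal.mul_mem_right _ _ (Ideal.mem_sup_right (Ideal.mem_span_singleton_self _)))⟩

lemma Jp_sat {𝔞 : Ideal (MvPolynomial (Fin m) ℤ)} {g f : MvPolynomial (Fin m) ℤ} {p N : ℕ}
    (h : g ^ N * f ∈ Jp 𝔞 g p) : f ∈ Jp 𝔞 g p := by
  obtain ⟨N', hN'⟩ := h
  refine ⟨N' + N, ?_⟩
  rw [pow_add, mul_assoc]
  exact hN'

/-- The prime `p` is totally exceptional: the reduction modulo `p` outside of the zeros of `g` is nonempty, and no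
nonzero function on it annihilates the functions in `𝓕 p`. -/
def TE (𝓕 : ℕ → Set (MvPolynomial (Fin m) ℤ)) (𝔞 : Ideal (MvPolynomial (Fin m) ℤ)) (g : MvPolynomial (Fin m) ℤ)
    (p : ℕ) : Prop :=
  1 ∉ Jp 𝔞 g p ∧ ∀ a, (∀ F ∈ 𝓕 p, a * F ∈ Jp 𝔞 g p) → a ∈ Jp 𝔞 g p

/-! ### Degrees -/

/-- The degrees of the coefficients are at most `D`. -/
def DU {d : ℕ} (D : ℕ) (f : Polynomial (MvPolynomial (Fin d) ℤ)) : Prop := ∀ l, DL D (f.coeff l)

lemma DU.mul {d D D' : ℕ} {f g : Polynomial (MvPolynomial (Fin d) ℤ)} (hf : DU D f) (hg : DU D' g) :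
    DU (D + D') (f * g) := fun l => by
  rw [Polynomial.coeff_mul]
  exact DL.sum _ fun x _ => (hf _).mul (hg _)

lemma DU.sum {d D : ℕ} {ι : Type*} (s : Finset ι) {f : ι → Polynomial (MvPolynomial (Fin d) ℤ)}
    (h : ∀ i ∈ s, DU D (f i)) : DU D (∑ i ∈ s, f i) := fun l => by
  rw [Polynomial.finsetSum_coeff]
  exact DL.sum _ fun i hi => h i hi l

lemma DU.const {d D : ℕ} (c : ℤ) : DU D (Polynomial.C (C c) : Polynomial (MvPolynomial (Fin d) ℤ)) := fun l => by
  rw [Polynomial.coeff_C]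
  split_ifs
  · exact DL.C c
  · exact DL.zero

lemma DU.prod {d D : ℕ} {ι : Type*} (s : Finset ι) {f : ι → Polynomial (MvPolynomial (Fin d) ℤ)}
    (h : ∀ i ∈ s, DU D (f i)) : DU (s.card * D) (∏ i ∈ s, f i) := by
  classical
  induction s using Finset.induction_on with
  | empty =>
    rw [prod_empty]
    have h1 : (1 : Polynomial (MvPolynomial (Fin d) ℤ)) = Polynomial.C (C 1) := by rw [C_1, Polynomial.C_1]
    rw [h1]
    exact DU.const 1
  | insert a s ha ih =>
    rw [prod_insert ha, card_insert_of_notMem ha]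
    have h1 : (s.card + 1) * D = D + s.card * D := by ring
    rw [h1]
    exact (h a (mem_insert_self _ _)).mul (ih fun i hi => h i (mem_insert_of_mem hi))

lemma DU.det {d D n : ℕ} (M : Matrix (Fin n) (Fin n) (Polynomial (MvPolynomial (Fin d) ℤ)))
    (h : ∀ i j, DU D (M i j)) : DU (n * D) M.det := by
  rw [Matrix.det_apply]
  refine DU.sum _ fun σ _ => ?_
  have h1 : DU (n * D) (∏ i, M (σ i) i) := by
    have h2 := DU.prod (univ : Finset (Fin n)) (D := D) (f := fun i => M (σ i) i) fun i _ => h _ _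
    rwa [card_univ, Fintype.card_fin] at h2
  rcases Int.units_eq_one_or (Equiv.Perm.sign σ) with h3 | h3
  · rw [h3, one_smul]
    exact h1
  · rw [h3, Units.neg_smul, one_smul]
    intro l i
    rw [Polynomial.coeff_neg, MvPolynomial.degreeOf_neg]
    exact h1 l i

/-! ### The matrix of a family -/

/-- The value of a polynomial with coefficients in the polynomial ring. -/
noncomputable def evU {d : ℕ} {k : Type*} [CommRing k] (t : Fin d → k) :
    Polynomial (MvPolynomial (Fin d) ℤ) →+* Polynomial k :=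
  Polynomial.mapRingHom (aeval t : MvPolynomial (Fin d) ℤ →ₐ[ℤ] k).toRingHom

lemma coeff_evU {d : ℕ} {k : Type*} [CommRing k] (t : Fin d → k) (f : Polynomial (MvPolynomial (Fin d) ℤ)) (l : ℕ) :
    (evU t f).coeff l = aeval t (f.coeff l) := by
  unfold evU
  rw [Polynomial.coe_mapRingHom, Polynomial.coeff_map]
  rfl

/-- The matrix. -/
theorem exists_mat (A : Dat m) {C : ℕ} (hg : DL C A.g) (hT : ∀ i j l, DL C (A.T i j l)) {N s : ℕ}
    (F : Fin s → MvPolynomial (Fin m) ℤ) (hF : ∀ i, (F i).totalDegree ≤ N) :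
    ∃ M : Matrix (Fin A.n) (Fin A.n) (Polynomial (MvPolynomial (Fin A.d) ℤ)), (∀ i j, DU (C * N) (M i j)) ∧
      ∀ (k : Type) [CommRing k] (z : Fin m → k), A.On z → ∀ j,
        ∑ l, evU (z ∘ A.y) (M j l) * Polynomial.C (mo z (A.ε l)) =
          Polynomial.C (aeval (z ∘ A.y) A.g ^ N) * (∑ i : Fin s, Polynomial.monomial (i : ℕ) (aeval z (F i))) *
            Polynomial.C (mo z (A.ε j)) := by
  classical
  choose Φ h1 h2 using fun i => A.exists_op hg hT (F i) (hF i)
  refine ⟨fun j l => ∑ i : Fin s, Polynomial.monomial (i : ℕ) (Φ i (Pi.single j 1) l), fun j l => ?_,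
    fun k _ z hz j => ?_⟩
  · refine DU.sum _ fun i _ => fun μ => ?_
    rw [Polynomial.coeff_monomial]
    split_ifs
    · have h3 := h1 i (Pi.single j 1) 0 (fun l => ?_) l
      · rwa [add_zero] at h3
      · by_cases h : l = j
        · subst h
          rw [Pi.single_eq_same]
          exact DL.C 1
        · rw [Pi.single_eq_of_ne h]
          exact DL.zero
    · exact DL.zero
  · have hev : A.ev z (Pi.single j 1) = mo z (A.ε j) := by
      unfold Dat.ev
      rw [Finset.sum_eq_single j]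
      · rw [Pi.single_eq_same, map_one, one_mul]
      · intro l _ hl
        rw [Pi.single_eq_of_ne hl, map_zero, zero_mul]
      · intro h; exact absurd (mem_univ _) h
    ext μ
    rw [Polynomial.finsetSum_coeff, mul_assoc, Polynomial.coeff_C_mul, Polynomial.coeff_mul_C,
      Polynomial.finsetSum_coeff]
    have h3 : ∀ l, (evU (z ∘ A.y) (∑ i : Fin s, Polynomial.monomial (i : ℕ) (Φ i (Pi.single j 1) l)) *
        Polynomial.C (mo z (A.ε l))).coeff μ =
        ∑ i : Fin s, (if (i : ℕ) = μ then aeval (z ∘ A.y) (Φ i (Pi.single j 1) l) * mo z (A.ε l) else 0) := by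
      intro l
      rw [Polynomial.coeff_mul_C, coeff_evU, Polynomial.finsetSum_coeff, map_sum, Finset.sum_mul]
      refine Finset.sum_congr rfl fun i _ => ?_
      rw [Polynomial.coeff_monomial]
      split_ifs
      · rfl
      · rw [map_zero, zero_mul]
    rw [Finset.sum_congr rfl fun l _ => h3 l, Finset.sum_comm, Finset.sum_mul, Finset.mul_sum]
    refine Finset.sum_congr rfl fun i _ => ?_
    rw [Polynomial.coeff_monomial]
    by_cases h : (i : ℕ) = μ
    · rw [if_pos h]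
      have h4 := h2 i k z hz (Pi.single j 1)
      rw [hev] at h4
      rw [← mul_assoc, ← h4]
      unfold Dat.ev
      exact Finset.sum_congr rfl fun l _ => by rw [if_pos h]
    · rw [if_neg h, zero_mul, mul_zero]
      exact Finset.sum_eq_zero fun l _ => by rw [if_neg h]

end Pool.Agent.H446.AP13
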