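import Pool.Agent.H446.AP13.W3

/-!
# Norms: the argument
-/

set_option autoImplicit false

namespace Pool.Agent.H446.AP13

open Finset MvPolynomial
open Pool.Agent.H446.AP10

variable {m : ℕ}

lemma exists_ring (I : Ideal (MvPolynomial (Fin m) ℤ)) : ∃ (k : Type) (_ : CommRing k)
    (ψ : MvPolynomial (Fin m) ℤ →+* k), Function.Surjective ψ ∧ ∀ f, ψ f = 0 ↔ f ∈ I :=
  ⟨_, inferInstance, Ideal.Quotient.mk I, Ideal.Quotient.mk_surjective, fun _ => Ideal.Quotient.eq_zero_iff_mem⟩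

lemma psi_aeval {k : Type*} [CommRing k] (ψ : MvPolynomial (Fin m) ℤ →+* k) (f : MvPolynomial (Fin m) ℤ) :
    aeval (fun i => ψ (X i)) f = ψ f := by
  rw [← map_aeval_int ψ (fun i => (X i : MvPolynomial (Fin m) ℤ)) f]
  exact congrArg ψ (aeval_X_left_apply f)

lemma on_psi (A : Dat m) {I : Ideal (MvPolynomial (Fin m) ℤ)} (h : ∀ i j, rel A i j ∈ I) {k : Type*} [CommRing k]
    {ψ : MvPolynomial (Fin m) ℤ →+* k} (hψ : ∀ f, ψ f = 0 ↔ f ∈ I) : A.On fun i => ψ (X i) :=
  on_of_rel A fun i j => by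
    rw [psi_aeval]
    exact (hψ _).2 (h i j)

lemma ev_sub (A : Dat m) {k : Type*} [CommRing k] (z : Fin m → k) (v w : Fin A.n → MvPolynomial (Fin A.d) ℤ) :
    A.ev z (fun l => v l - w l) = A.ev z v - A.ev z w := by
  unfold Dat.ev
  rw [← Finset.sum_sub_distrib]
  refine Finset.sum_congr rfl fun l _ => ?_
  rw [map_sub, sub_mul]

/-- The function with given coordinates. -/
noncomputable def fn (A : Dat m) (v : Fin A.n → MvPolynomial (Fin A.d) ℤ) : MvPolynomial (Fin m) ℤ :=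
  ∑ l, rename A.y (v l) * monomial (A.ε l) 1

lemma aeval_fn (A : Dat m) (v : Fin A.n → MvPolynomial (Fin A.d) ℤ) {k : Type*} [CommRing k] (z : Fin m → k) :
    aeval z (fn A v) = A.ev z v := by
  have h1 : ∀ a : Fin m →₀ ℕ, aeval z (monomial a (1 : ℤ)) = mo z a := by
    intro a
    rw [aeval_monomial, map_one, one_mul, Finsupp.prod_fintype _ _ fun i => pow_zero _]
    rfl
  unfold fn Dat.ev
  rw [map_sum]
  refine Finset.sum_congr rfl fun l _ => ?_
  rw [map_mul, aeval_rename, h1]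

lemma map_g_ne {p : ℕ} {𝔞 : Ideal (MvPolynomial (Fin m) ℤ)} (A : Dat m)
    (h1 : 1 ∉ Jp 𝔞 (rename A.y A.g) p) : MvPolynomial.map (Int.castRingHom (ZMod p)) A.g ≠ 0 := by
  intro h
  rw [← MvPolynomial.C_dvd_iff_zmod] at h
  obtain ⟨g', hg'⟩ := h
  apply h1
  refine ⟨1, ?_⟩
  rw [pow_one, mul_one, hg', map_mul, rename_C]
  refine Ideal.mem_sup_right (Ideal.mul_mem_right _ _ ?_)
  have h2 : (C ((p : ℕ) : ℤ) : MvPolynomial (Fin m) ℤ) = ((p : ℕ) : MvPolynomial (Fin m) ℤ) := by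
    rw [map_natCast]
  rw [h2]
  exact Ideal.mem_span_singleton_self _

/-- **Independence modulo `p`.** -/
lemma ind_mod (A : Dat m) {D : ℕ} (hg : DL D A.g) (hT : ∀ i j l, DL D (A.T i j l)) {p : ℕ} (hp : p.Prime)
    {𝔞 : Ideal (MvPolynomial (Fin m) ℤ)} (hrel : ∀ i j, rel A i j ∈ 𝔞)
    (hind : ∀ v : Fin A.n → MvPolynomial (Fin A.d) ℤ, fn A v ∈ 𝔞 → v = 0)
    (h1 : 1 ∉ Jp 𝔞 (rename A.y A.g) p) {v : Fin A.n → MvPolynomial (Fin A.d) ℤ}
    (hv : fn A v ∈ Jp 𝔞 (rename A.y A.g) p) (l : Fin A.n) :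
    MvPolynomial.map (Int.castRingHom (ZMod p)) (v l) = 0 := by
  have hfact : Fact p.Prime := ⟨hp⟩
  obtain ⟨N, hN⟩ := hv
  obtain ⟨α, hα, β, hβ, hαβ⟩ := Submodule.mem_sup.1 hN
  obtain ⟨f, hf⟩ := Ideal.mem_span_singleton.1 hβ
  obtain ⟨Φ, -, hΦ⟩ := A.exists_op hg hT f le_rfl
  obtain ⟨k, _, ψ, -, hψ⟩ := exists_ring 𝔞
  set z : Fin m → k := fun i => ψ (X i) with hz
  have hon : A.On z := on_psi A hrel hψ
  have h2 : aeval (z ∘ A.y) A.g ^ N * A.ev z v = (p : k) * aeval z f := by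
    rw [← aeval_rename, ← aeval_fn, hz, psi_aeval, psi_aeval, psi_aeval, ← map_pow, ← map_mul, ← hαβ, hf, map_add,
      map_mul, map_natCast, (hψ α).2 hα, zero_add]
  have h3 := hΦ _ z hon (Pi.single A.o 1)
  rw [A.ev_one, mul_one] at h3
  have h4 : A.ev z (fun l => A.g ^ (f.totalDegree + N) * v l - C ((p : ℕ) : ℤ) * Φ (Pi.single A.o 1) l) = 0 := by
    rw [ev_sub A z (fun l => A.g ^ (f.totalDegree + N) * v l) fun l => C ((p : ℕ) : ℤ) * Φ (Pi.single A.o 1) l,
      A.ev_smul, A.ev_smul, h3, map_pow, aeval_C, pow_add, mul_assoc, h2]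
    have h5 : algebraMap ℤ k ((p : ℕ) : ℤ) = (p : k) := by
      rw [eq_intCast, Int.cast_natCast]
    rw [h5]
    ring
  rw [← aeval_fn, hz, psi_aeval, hψ] at h4
  have h5 := congrFun (hind _ h4) l
  have h6 : MvPolynomial.map (Int.castRingHom (ZMod p)) (A.g ^ (f.totalDegree + N) * v l) = 0 := by
    rw [← MvPolynomial.C_dvd_iff_zmod]
    exact ⟨Φ (Pi.single A.o 1) l, sub_eq_zero.1 h5⟩
  rw [map_mul, map_pow] at h6
  rcases mul_eq_zero.1 h6 with h7 | h7
  · exact absurd (eq_zero_of_pow_eq_zero h7) (map_g_ne A h1)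
  · exact h7

/-- The determinant at a point where the functions are divisible by `c`. -/
lemma det_dvd (A : Dat m) {N s : ℕ} {F : Fin s → MvPolynomial (Fin m) ℤ}
    {M : Matrix (Fin A.n) (Fin A.n) (Polynomial (MvPolynomial (Fin A.d) ℤ))} {k : Type*} [CommRing k] {z : Fin m → k}
    (hM : ∀ j, ∑ l, evU (z ∘ A.y) (M j l) * Polynomial.C (mo z (A.ε l)) =
          Polynomial.C (aeval (z ∘ A.y) A.g ^ N) * (∑ i : Fin s, Polynomial.monomial (i : ℕ) (aeval z (F i))) *
            Polynomial.C (mo z (A.ε j))) {c : k} (hc : ∀ i, c ∣ aeval z (F i)) :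
    ∃ P : Polynomial k, evU (z ∘ A.y) M.det = Polynomial.C c * P := by
  classical
  choose y hy using hc
  set M' := (evU (z ∘ A.y)).mapMatrix M with hM'
  have h1 : M'.mulVec (fun l => Polynomial.C (mo z (A.ε l))) = fun j => Polynomial.C c *
      (Polynomial.C (aeval (z ∘ A.y) A.g ^ N) * (∑ i : Fin s, Polynomial.monomial (i : ℕ) (y i)) *
            Polynomial.C (mo z (A.ε j))) := by
    funext j
    have h2 : M'.mulVec (fun l => Polynomial.C (mo z (A.ε l))) j =
        ∑ l, evU (z ∘ A.y) (M j l) * Polynomial.C (mo z (A.ε l)) := rfl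
    rw [h2, hM j]
    have h3 : (∑ i : Fin s, Polynomial.monomial (i : ℕ) (aeval z (F i))) =
        Polynomial.C c * ∑ i : Fin s, Polynomial.monomial (i : ℕ) (y i) := by
      rw [Finset.mul_sum]
      refine Finset.sum_congr rfl fun i _ => ?_
      rw [Polynomial.C_mul_monomial, ← hy i]
    rw [h3]
    ring
  have h2 : M'.adjugate.mulVec (M'.mulVec fun l => Polynomial.C (mo z (A.ε l))) A.o = M'.det := by
    rw [Matrix.mulVec_mulVec, Matrix.adjugate_mul, Matrix.smul_mulVec, Matrix.one_mulVec]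
    show M'.det * Polynomial.C (mo z (A.ε A.o)) = M'.det
    have h3 : mo z (A.ε A.o) = 1 := by
      rw [A.ho]
      unfold mo
      simp
    rw [h3, Polynomial.C_1, mul_one]
  rw [h1] at h2
  have h3 : evU (z ∘ A.y) M.det = M'.det := by
    rw [hM', RingHom.map_det]
  set G : Polynomial k := Polynomial.C (aeval (z ∘ A.y) A.g ^ N) * (∑ i : Fin s, Polynomial.monomial (i : ℕ) (y i)) with hG
  rw [h3, ← h2]
  refine ⟨∑ j, M'.adjugate A.o j * (G * Polynomial.C (mo z (A.ε j))), ?_⟩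
  have h5 : ∀ j, M'.adjugate A.o j * (Polynomial.C c * (G * Polynomial.C (mo z (A.ε j)))) =
      Polynomial.C c * (M'.adjugate A.o j * (G * Polynomial.C (mo z (A.ε j)))) := fun j => by ring
  show ∑ j, M'.adjugate A.o j * (Polynomial.C c * (G * Polynomial.C (mo z (A.ε j)))) = _
  rw [Finset.sum_congr rfl fun j _ => h5 j, ← Finset.mul_sum]

/-- **Norms.** -/
theorem normT (A : Dat m) {D : ℕ} (hg : DL D A.g) (hT : ∀ i j l, DL D (A.T i j l)) {N p s : ℕ} (hp : p.Prime)
    (F : Fin s → MvPolynomial (Fin m) ℤ) (hF : ∀ i, (F i).totalDegree ≤ N)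
    {𝔞 : Ideal (MvPolynomial (Fin m) ℤ)} (hrel : ∀ i j, rel A i j ∈ 𝔞)
    (hind : ∀ v : Fin A.n → MvPolynomial (Fin A.d) ℤ, fn A v ∈ 𝔞 → v = 0)
    (h1 : 1 ∉ Jp 𝔞 (rename A.y A.g) p)
    (hTE : ∀ a, (∀ i, a * F i ∈ Jp 𝔞 (rename A.y A.g) p) → a ∈ Jp 𝔞 (rename A.y A.g) p) :
    ∃ R : MvPolynomial (Fin A.d) ℤ, DL (A.n * (D * N)) R ∧ MvPolynomial.map (Int.castRingHom (ZMod p)) R ≠ 0 ∧
      ∀ (O : Subring ℂ) (ω : Fin m → ℂ), (∀ i, ω i ∈ O) → A.On ω → (∀ i, ∃ y ∈ O, aeval ω (F i) = p * y) →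
        ∃ t ∈ O, aeval (ω ∘ A.y) R = p * t := by
  classical
  have hfact : Fact p.Prime := ⟨hp⟩
  obtain ⟨M, hM1, hM2⟩ := exists_mat A hg hT F hF
  -- some coefficient is not zero modulo `p`
  have key : ∃ μ, MvPolynomial.map (Int.castRingHom (ZMod p)) (M.det.coeff μ) ≠ 0 := by
    by_contra hall
    push Not at hall
    set π : Polynomial (MvPolynomial (Fin A.d) ℤ) →+* Polynomial (MvPolynomial (Fin A.d) (ZMod p)) :=
      Polynomial.mapRingHom (MvPolynomial.map (Int.castRingHom (ZMod p))) with hπ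
    have hπc : ∀ f l, (π f).coeff l = MvPolynomial.map (Int.castRingHom (ZMod p)) (f.coeff l) := by
      intro f l
      rw [hπ, Polynomial.coe_mapRingHom, Polynomial.coeff_map]
    have hπs : Function.Surjective π := by
      rw [hπ, Polynomial.coe_mapRingHom]
      exact Polynomial.map_surjective _ (MvPolynomial.map_surjective _ (ZMod.ringHom_surjective _))
    have hdet : (π.mapMatrix M).det = 0 := by
      rw [← RingHom.map_det]
      ext1 l
      rw [hπc, hall l, Polynomial.coeff_zero]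
    obtain ⟨v, hv0, hv⟩ := Matrix.exists_vecMul_eq_zero_iff.2 hdet
    choose w hw using fun j => hπs (v j)
    obtain ⟨k, _, ψ, hψs, hψ⟩ := exists_ring (Jp 𝔞 (rename A.y A.g) p)
    set z : Fin m → k := fun i => ψ (X i) with hz
    have hon : A.On z := on_psi A (fun i j => le_Jp (hrel i j)) hψ
    have hM := hM2 k z hon
    have hp0 : (p : k) = 0 := by
      have h2 := (hψ _).2 (p_mem_Jp (𝔞 := 𝔞) (g := rename A.y A.g) (p := p) 1)
      rwa [mul_one, map_natCast] at h2
    have hmod : ∀ f : Polynomial (MvPolynomial (Fin A.d) ℤ), π f = 0 → evU (z ∘ A.y) f = 0 := by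
      intro f hf
      ext1 l
      rw [coeff_evU, Polynomial.coeff_zero]
      have h2 : MvPolynomial.map (Int.castRingHom (ZMod p)) (f.coeff l) = 0 := by
        rw [← hπc, hf, Polynomial.coeff_zero]
      rw [← MvPolynomial.C_dvd_iff_zmod] at h2
      obtain ⟨f', hf'⟩ := h2
      rw [hf', map_mul, aeval_C, eq_intCast, Int.cast_natCast, hp0, zero_mul]
    -- the function `a(u)`
    set a : Polynomial k := ∑ j, evU (z ∘ A.y) (w j) * Polynomial.C (mo z (A.ε j)) with ha
    have hmul : (Polynomial.C (aeval (z ∘ A.y) A.g ^ N) * (∑ i : Fin s, Polynomial.monomial (i : ℕ) (aeval z (F i)))) *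
        a = 0 := by
      rw [ha, Finset.mul_sum]
      have h2 : ∀ j, Polynomial.C (aeval (z ∘ A.y) A.g ^ N) *
          (∑ i : Fin s, Polynomial.monomial (i : ℕ) (aeval z (F i))) *
          (evU (z ∘ A.y) (w j) * Polynomial.C (mo z (A.ε j))) =
          ∑ l, evU (z ∘ A.y) (w j * M j l) * Polynomial.C (mo z (A.ε l)) := by
        intro j
        have h3 : ∑ l, evU (z ∘ A.y) (w j * M j l) * Polynomial.C (mo z (A.ε l)) =
            evU (z ∘ A.y) (w j) * ∑ l, evU (z ∘ A.y) (M j l) * Polynomial.C (mo z (A.ε l)) := by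
          rw [Finset.mul_sum]
          refine Finset.sum_congr rfl fun l _ => ?_
          rw [map_mul, mul_assoc]
        rw [h3, hM j]
        ring
      rw [Finset.sum_congr rfl fun j _ => h2 j, Finset.sum_comm]
      refine Finset.sum_eq_zero fun l _ => ?_
      rw [← Finset.sum_mul, ← map_sum, hmod, zero_mul]
      rw [map_sum]
      have h3 := congrFun hv l
      refine Eq.trans (Finset.sum_congr rfl fun j _ => ?_) h3
      rw [map_mul, hw]
      rfl
    by_cases ha0 : a = 0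
    · -- independence
      apply hv0
      funext j
      rw [Pi.zero_apply, ← hw j]
      ext1 l
      rw [hπc, Polynomial.coeff_zero]
      refine ind_mod A hg hT hp hrel hind h1 (v := fun j => (w j).coeff l) ?_ j
      rw [← hψ, ← psi_aeval ψ, ← hz, aeval_fn]
      have h2 := congrArg (fun f : Polynomial k => f.coeff l) ha0
      beta_reduce at h2
      rw [ha, Polynomial.finsetSum_coeff, Polynomial.coeff_zero] at h2
      refine Eq.trans (Finset.sum_congr rfl fun j _ => ?_) h2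
      rw [Polynomial.coeff_mul_C, coeff_evU]
    · -- McCoy
      have h2 : (Polynomial.C (aeval (z ∘ A.y) A.g ^ N) *
          (∑ i : Fin s, Polynomial.monomial (i : ℕ) (aeval z (F i)))) ∉ nonZeroDivisors (Polynomial k) := by
        intro h3
        exact ha0 ((mul_left_mem_nonZeroDivisors_eq_zero_iff h3).1 hmul)
      rw [Polynomial.notMem_nonZeroDivisors_iff] at h2
      obtain ⟨b, hb0, hb⟩ := h2
      obtain ⟨b', rfl⟩ := hψs b
      apply hb0
      rw [hψ]
      refine hTE b' fun i => Jp_sat (N := N) ?_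
      rw [← hψ]
      have h3 := congrArg (fun f : Polynomial k => f.coeff (i : ℕ)) hb
      beta_reduce at h3
      rw [Polynomial.coeff_smul, Polynomial.coeff_C_mul, Polynomial.finsetSum_coeff, Polynomial.coeff_zero,
        Finset.sum_eq_single i] at h3
      · rw [Polynomial.coeff_monomial, if_pos rfl, smul_eq_mul, ← aeval_rename, hz, psi_aeval, psi_aeval] at h3
        rw [map_mul, map_mul, map_pow]
        rw [← h3]
        ring
      · intro i' _ hi'
        rw [Polynomial.coeff_monomial, if_neg]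
        intro h4
        exact hi' (Fin.ext h4)
      · intro h; exact absurd (mem_univ i) h
  obtain ⟨μ, hμ⟩ := key
  refine ⟨M.det.coeff μ, DU.det M hM1 μ, hμ, fun O ω hω hon hy => ?_⟩
  -- good points
  set z : Fin m → O := fun i => ⟨ω i, hω i⟩ with hz
  have hval : ∀ f : MvPolynomial (Fin m) ℤ, ((aeval z f : O) : ℂ) = aeval ω f := fun f =>
    map_aeval_int O.subtype z f
  have hvaly : ∀ f : MvPolynomial (Fin A.d) ℤ, ((aeval (z ∘ A.y) f : O) : ℂ) = aeval (ω ∘ A.y) f := fun f =>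
    map_aeval_int O.subtype (z ∘ A.y) f
  have hmo : ∀ a : Fin m →₀ ℕ, ((mo z a : O) : ℂ) = mo ω a := by
    intro a
    unfold mo
    have h2 : ((∏ i, z i ^ a i : O) : ℂ) = O.subtype (∏ i, z i ^ a i) := rfl
    rw [h2, map_prod]
    exact Finset.prod_congr rfl fun i _ => map_pow _ _ _
  have honz : A.On z := by
    intro i j
    apply Subtype.ext
    push_cast
    rw [hvaly, hmo]
    refine (hon i j).trans ?_
    refine Finset.sum_congr rfl fun l _ => ?_
    rw [hvaly, hmo]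
  have hdvd : ∀ i, ((p : ℕ) : O) ∣ aeval z (F i) := by
    intro i
    obtain ⟨y, hyO, hy'⟩ := hy i
    refine ⟨⟨y, hyO⟩, Subtype.ext ?_⟩
    rw [hval, hy']
    push_cast
    rfl
  obtain ⟨P, hP⟩ := det_dvd A (hM2 O z honz) hdvd
  refine ⟨(P.coeff μ : O), (P.coeff μ).2, ?_⟩
  have h2 := congrArg (fun f : Polynomial O => f.coeff μ) hP
  beta_reduce at h2
  rw [coeff_evU, Polynomial.coeff_C_mul] at h2
  rw [← hvaly, h2]
  push_cast
  rfl

end Pool.Agent.H446.AP13
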