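import Pool.Agent.H446.AP13.W2
import Pool.Agent.H446.AP13.W4

/-!
# Hypersurfaces through the points with many good places
-/

set_option autoImplicit false

namespace Pool.Agent.H446.AP13

open Finset MvPolynomial
open Pool.Agent.H446.AP (Orb mm)
open Pool.Agent.H446.AP6 (IsPl)
open Pool.Agent.H446.AP5 (algebraic_of)
open Pool.Agent.H446.AP10
open Pool.Agent.H446.AP11
open Pool.Agent.H446.AP12

variable {m : ℕ}

/-- The data of a prime ideal without integers. -/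
lemma exists_dat_ind {𝔞 : Ideal (MvPolynomial (Fin m) ℤ)} (hp : 𝔞.IsPrime) (h0 : ∀ n : ℤ, C n ∈ 𝔞 → n = 0) :
    ∃ A : Dat m, rename A.y A.g ∉ 𝔞 ∧ (∀ i j, rel A i j ∈ 𝔞) ∧
      ∀ v : Fin A.n → MvPolynomial (Fin A.d) ℤ, fn A v ∈ 𝔞 → v = 0 := by
  classical
  have hdom : IsDomain (MvPolynomial (Fin m) ℤ ⧸ 𝔞) := Ideal.Quotient.isDomain 𝔞
  obtain ⟨K, _, φ, hφ⟩ : ∃ (K : Type) (_ : Field K) (φ : MvPolynomial (Fin m) ℤ →+* K), ∀ f, φ f = 0 ↔ f ∈ 𝔞 := by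
    refine ⟨_, inferInstance, (algebraMap (MvPolynomial (Fin m) ℤ ⧸ 𝔞)
      (FractionRing (MvPolynomial (Fin m) ℤ ⧸ 𝔞))).comp (Ideal.Quotient.mk 𝔞), fun f => ?_⟩
    rw [← Ideal.Quotient.eq_zero_iff_mem]
    show algebraMap (MvPolynomial (Fin m) ℤ ⧸ 𝔞) (FractionRing (MvPolynomial (Fin m) ℤ ⧸ 𝔞))
      (Ideal.Quotient.mk 𝔞 f) = 0 ↔ _
    rw [map_eq_zero_iff _ (IsFractionRing.injective (MvPolynomial (Fin m) ℤ ⧸ 𝔞)
      (FractionRing (MvPolynomial (Fin m) ℤ ⧸ 𝔞)))]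
  let x : Fin m → K := fun i => φ (X i)
  have hx : ∀ f, aeval x f = φ f := psi_aeval φ
  have hchar : CharZero K := by
    refine charZero_of_injective_algebraMap (R := ℤ) ?_
    rw [injective_iff_map_eq_zero]
    intro n hn
    refine h0 n ((hφ _).1 ?_)
    rw [← hx, aeval_C]
    exact hn
  obtain ⟨A, h1, h2, h3⟩ := exists_dat x
  refine ⟨A, fun h => h1 ?_, fun i j => (hφ _).1 ?_, fun v hv => ?_⟩
  · rw [← aeval_rename, hx, (hφ _).2 h]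
  · rw [← hx, aeval_rel, sub_eq_zero]
    exact h2 i j
  · by_contra hne
    refine h3 v hne ?_
    rw [← aeval_fn, hx, (hφ _).2 hv]

/-- Finitely many functions suffice. -/
lemma TE_finite {𝓕 : ℕ → Set (MvPolynomial (Fin m) ℤ)} {𝔞 : Ideal (MvPolynomial (Fin m) ℤ)}
    {g : MvPolynomial (Fin m) ℤ} {p : ℕ} (h : TE 𝓕 𝔞 g p) :
    ∃ (s : ℕ) (F : Fin s → MvPolynomial (Fin m) ℤ), (∀ i, F i ∈ 𝓕 p) ∧
      ∀ a, (∀ i, a * F i ∈ Jp 𝔞 g p) → a ∈ Jp 𝔞 g p := by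
  obtain ⟨s, hs, hspan⟩ := (Submodule.fg_span_iff_fg_span_finset_subset (R := MvPolynomial (Fin m) ℤ) (𝓕 p)).1
    (IsNoetherian.noetherian _)
  refine ⟨s.card, fun i => (s.equivFin.symm i : MvPolynomial (Fin m) ℤ), fun i => hs (s.equivFin.symm i).2,
    fun a ha => h.2 a fun F hF => ?_⟩
  have h1 : F ∈ Submodule.span (MvPolynomial (Fin m) ℤ) (s : Set (MvPolynomial (Fin m) ℤ)) := by
    rw [← hspan]
    exact Submodule.subset_span hF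
  clear hF
  induction h1 using Submodule.span_induction with
  | mem x hx =>
    have h2 := ha (s.equivFin ⟨x, hx⟩)
    beta_reduce at h2
    rwa [Equiv.symm_apply_apply] at h2
  | zero =>
    rw [mul_zero]
    exact Ideal.zero_mem _
  | add x y _ _ hx hy =>
    rw [mul_add]
    exact Ideal.add_mem _ hx hy
  | smul c x _ hx =>
    rw [smul_eq_mul, mul_left_comm]
    exact Ideal.mul_mem_left _ _ hx

/-- If the reduction is irreducible and reduced then one function suffices. -/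
lemma TE_of_prime {𝓕 : ℕ → Set (MvPolynomial (Fin m) ℤ)} {𝔞 : Ideal (MvPolynomial (Fin m) ℤ)}
    {g : MvPolynomial (Fin m) ℤ} {p : ℕ} (hJ : (Jp 𝔞 g p).IsPrime) (h : ∃ F ∈ 𝓕 p, F ∉ Jp 𝔞 g p) : TE 𝓕 𝔞 g p := by
  obtain ⟨F, hF, hF'⟩ := h
  refine ⟨fun h1 => hJ.ne_top ((Ideal.eq_top_iff_one _).2 h1), fun a ha => ?_⟩
  exact (hJ.mem_or_mem (ha F hF)).resolve_right hF'

/-- **The hypersurface, with weights.** -/
theorem stepT {c : ℕ} {𝓕 : ℕ → Set (MvPolynomial (Fin m) ℤ)} (h𝓕 : ∀ p, ∀ F ∈ 𝓕 p, F.totalDegree ≤ c * p)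
    {𝔞 : Ideal (MvPolynomial (Fin m) ℤ)} (hp : 𝔞.IsPrime) (h0 : ∀ n : ℤ, C n ∈ 𝔞 → n = 0) :
    ∃ g ∉ 𝔞, ∃ (C₂ : ℝ) (K : ℕ), 0 ≤ C₂ ∧ ∀ (Q : Finset ℕ) (x : ℕ) (r : ℕ → ℝ), 1 ≤ x →
      (∀ p ∈ Q, p.Prime ∧ p ≤ x ∧ TE 𝓕 𝔞 g p) → (∀ p ∈ Q, 0 ≤ r p ∧ r p ≤ 1) →
      ∃ R ∉ 𝔞, R.totalDegree ≤ K * x ∧ ∀ (H : ℝ) (Gd : ℕ → (Fin m → ℂ) → Prop) (O : ℕ → Subring ℂ)
        (ω : Fin m → ℂ), 0 ≤ H → (∀ p ∈ Q, IsPl p (O p) ∧ ∀ ω, Gd p ω → GdO 𝓕 p (O p) ω) →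
        (∀ i, ∃ P : Polynomial ℤ, Orb P ∧ Real.log (mm P) ≤ P.natDegree * H ∧ Polynomial.aeval (ω i) P = 0) →
        (∀ f ∈ 𝔞, aeval ω f = 0) →
        ∑ p ∈ Q, r p ^ 2 / 2 * (Real.log p / p) + C₂ * (H + 1) < ∑ p ∈ Q, r p * rho (Gd p) ω * (Real.log p / p) →
        aeval ω R = 0 := by
  classical
  obtain ⟨A, h1, h2, h3⟩ := exists_dat_ind hp h0
  obtain ⟨D, hD1, hg, hT⟩ := A.exists_bound
  have hn : 0 < A.n := A.o.pos
  have hc1 : 0 < A.n * (D * (c + 1)) := by positivity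
  obtain ⟨C₂, K, hC₂, hstep⟩ := stepW A.d (A.n * (D * (c + 1))) hc1
  refine ⟨rename A.y A.g, h1, C₂, K, hC₂, fun Q x r hx hQ hr => ?_⟩
  have hF : ∀ p ∈ Q, ∃ R : MvPolynomial (Fin A.d) ℤ, DL (A.n * (D * (c + 1)) * p) R ∧
      MvPolynomial.map (Int.castRingHom (ZMod p)) R ≠ 0 ∧
      ∀ (O : Subring ℂ) (ω : Fin m → ℂ), GdO 𝓕 p O ω → A.On ω → ∃ t ∈ O, aeval (ω ∘ A.y) R = p * t := by
    intro p hpQ
    obtain ⟨hpp, -, hTE⟩ := hQ p hpQ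
    obtain ⟨s, F, hFm, hF⟩ := TE_finite hTE
    obtain ⟨R, hR1, hR2, hR3⟩ := normT A hg hT (N := (c + 1) * p) hpp F
      (fun i => (h𝓕 p _ (hFm i)).trans (Nat.mul_le_mul_right _ (by omega))) h2 h3 hTE.1 hF
    refine ⟨R, ?_, hR2, fun O ω hG hon => hR3 O ω hG.1 hon fun i => hG.2 _ (hFm i)⟩
    have h4 : A.n * (D * (c + 1)) * p = A.n * (D * ((c + 1) * p)) := by ring
    rw [h4]
    exact hR1
  choose! F hF1 hF2 hF3 using hF
  obtain ⟨R, hR0, hRdeg, hR⟩ := hstep F Q x r hx (fun p hpQ => ⟨(hQ p hpQ).1, (hQ p hpQ).2.1, hF1 p hpQ, hF2 p hpQ⟩) hr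
  refine ⟨rename A.y R, fun h4 => hR0 ?_, (totalDegree_rename_le _ _).trans hRdeg, fun H Gd O ω hH hO hω hz hlt => ?_⟩
  · have h5 : fn A (Pi.single A.o R) = rename A.y R := by
      unfold fn
      rw [Finset.sum_eq_single A.o]
      · rw [Pi.single_eq_same, A.ho]
        exact mul_one _
      · intro l _ hl
        rw [Pi.single_eq_of_ne hl, map_zero, zero_mul]
      · intro h; exact absurd (mem_univ _) h
    rw [← h5] at h4
    have h6 := congrFun (h3 _ h4) A.o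
    rwa [Pi.single_eq_same] at h6
  choose P hP using hω
  have halg : ∀ i, IsAlgebraic ℚ (ω i) := fun i => algebraic_of (hP i).1 (hP i).2.2
  have hfd := finite_Kf halg
  have hz' : ∀ f : MvPolynomial (Fin m) ℤ, aeval ω f = 0 → aeval (gn ω) f = 0 := fun f hf => by
    have h5 : (Kf ω).val (aeval (gn ω) f) = (Kf ω).val 0 := by rw [aeval_gn, map_zero, hf]
    exact (Kf ω).val.injective h5
  have honω : ∀ s : Kf ω →ₐ[ℚ] ℂ, A.On fun i => s (gn ω i) := by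
    intro s
    refine on_of_rel A fun i j => ?_
    have h5 : aeval (fun i => s (gn ω i)) (rel A i j) = s (aeval (gn ω) (rel A i j)) :=
      (map_aeval_int (s : Kf ω →+* ℂ) (gn ω) _).symm
    rw [h5, hz' _ (hz _ (h2 i j)), map_zero]
  have hPy : ∀ i, Orb ((P ∘ A.y) i) ∧ Real.log (mm ((P ∘ A.y) i)) ≤ ((P ∘ A.y) i).natDegree * H ∧
      Polynomial.aeval ((gn ω ∘ A.y) i) ((P ∘ A.y) i) = 0 := by
    intro i
    refine ⟨(hP _).1, (hP _).2.1, ?_⟩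
    have h6 := (hP (A.y i)).2.2
    have h7 : (Polynomial.aeval (ω (A.y i)) (P (A.y i))) = (Kf ω).val (Polynomial.aeval (gn ω (A.y i)) (P (A.y i))) := by
      rw [Polynomial.aeval_def, Polynomial.aeval_def]
      show _ = ((Kf ω).val : Kf ω →+* ℂ) _
      rw [Polynomial.hom_eval₂]
      congr 1
    rw [h7] at h6
    have h8 : (Kf ω).val (Polynomial.aeval (gn ω (A.y i)) (P (A.y i))) = (Kf ω).val 0 := by rw [h6, map_zero]
    exact (Kf ω).val.injective h8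
  have hpl : ∀ p ∈ Q, IsPl p (O p) ∧ ∀ s ∈ (univ : Finset (Kf ω →ₐ[ℚ] ℂ)).filter (fun s => Gd p fun i => s (gn ω i)),
      (∀ i, s ((gn ω ∘ A.y) i) ∈ O p) ∧ ∃ t ∈ O p, aeval (fun i => s ((gn ω ∘ A.y) i)) (F p) = p * t := by
    intro p hpQ
    refine ⟨(hO p hpQ).1, fun s hs => ?_⟩
    rw [mem_filter] at hs
    have hG := (hO p hpQ).2 _ hs.2
    exact ⟨fun i => hG.1 (A.y i), hF3 p hpQ (O p) (fun i => s (gn ω i)) hG (honω s)⟩
  have hlt' : ∑ p ∈ Q, r p ^ 2 / 2 * (Real.log p / p) + C₂ * (H + 1) <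
      ∑ p ∈ Q, r p * ((((univ : Finset (Kf ω →ₐ[ℚ] ℂ)).filter (fun s => Gd p fun i => s (gn ω i))).card : ℝ) /
        Module.finrank ℚ (Kf ω)) * (Real.log p / p) := by
    refine lt_of_lt_of_eq hlt ?_
    refine Finset.sum_congr rfl fun p _ => ?_
    unfold rho
    rw [Nat.card_eq_fintype_card, Fintype.card_subtype]
  have h5 : aeval (gn ω ∘ A.y) R = 0 := hR (Kf ω) H (gn ω ∘ A.y) (P ∘ A.y) O
    (fun p => univ.filter fun s => Gd p fun i => s (gn ω i)) hH hPy hpl hlt'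
  have h6 : aeval (gn ω) (rename A.y R) = 0 := by rw [aeval_rename, h5]
  rw [← aeval_gn, h6, map_zero]

end Pool.Agent.H446.AP13
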