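import Pool.Agent.H446.AP13.W5

/-!
# The good places of a point and of the generic point
-/

set_option autoImplicit false

namespace Pool.Agent.H446.AP13

open Finset MvPolynomial
open Pool.Agent.H446.AP (Orb mm)
open Pool.Agent.H446.AP6 (IsPl)
open Pool.Agent.H446.AP5 (algebraic_of)
open Pool.Agent.H446.AP10
open Pool.Agent.H446.AP11
open Pool.Agent.H446.AP12

variable {m : ℕ}

lemma rho_le {Gd : (Fin m → ℂ) → Prop} {ω : Fin m → ℂ} (hω : ∀ i, IsAlgebraic ℚ (ω i)) : rho Gd ω ≤ 1 := by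
  classical
  have hfd := finite_Kf hω
  have hN0 : 0 < Module.finrank ℚ (Kf ω) := Module.finrank_pos
  unfold rho
  rw [div_le_one (by exact_mod_cast hN0)]
  have h1 : Nat.card {s : Kf ω →ₐ[ℚ] ℂ // Gd fun i => s (gn ω i)} ≤ Nat.card (Kf ω →ₐ[ℚ] ℂ) :=
    Nat.card_le_card_of_injective _ Subtype.val_injective
  rw [Nat.card_eq_fintype_card (α := Kf ω →ₐ[ℚ] ℂ), AlgHom.card] at h1
  exact_mod_cast h1

open Classical in
/-- The primes `p ≤ N` which are totally exceptional. -/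
noncomputable def TEs (𝓕 : ℕ → Set (MvPolynomial (Fin m) ℤ)) (𝔞 : Ideal (MvPolynomial (Fin m) ℤ))
    (g : MvPolynomial (Fin m) ℤ) (N : ℕ) : Finset ℕ := (Icc 1 N).filter fun p : ℕ => p.Prime ∧ TE 𝓕 𝔞 g p

lemma mem_TEs {𝓕 : ℕ → Set (MvPolynomial (Fin m) ℤ)} {𝔞 : Ideal (MvPolynomial (Fin m) ℤ)}
    {g : MvPolynomial (Fin m) ℤ} {N p : ℕ} : p ∈ TEs 𝓕 𝔞 g N ↔ p.Prime ∧ p ≤ N ∧ TE 𝓕 𝔞 g p := by
  classical
  unfold TEs
  rw [mem_filter, mem_Icc]
  constructor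
  · rintro ⟨⟨-, h1⟩, h2, h3⟩
    exact ⟨h2, h1, h3⟩
  · rintro ⟨h1, h2, h3⟩
    exact ⟨⟨h1.one_lt.le, h2⟩, h1, h3⟩

lemma log_div_nonneg (p : ℕ) : 0 ≤ Real.log p / (p : ℝ) := div_nonneg (Real.log_natCast_nonneg p) (Nat.cast_nonneg p)

/-- **The good places over the totally exceptional primes.** -/
theorem sqrtT {c : ℕ} {𝓕 : ℕ → Set (MvPolynomial (Fin m) ℤ)} (h𝓕 : ∀ p, ∀ F ∈ 𝓕 p, F.totalDegree ≤ c * p)
    {𝔞 : Ideal (MvPolynomial (Fin m) ℤ)} (hp : 𝔞.IsPrime) (h0 : ∀ n : ℤ, C n ∈ 𝔞 → n = 0) :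
    ∃ g ∉ 𝔞, ∃ K : ℕ,
      (∀ (N : ℕ) (r : ℕ → ℝ), 1 ≤ N → (∀ p, 0 ≤ r p ∧ r p ≤ 1) →
        ∃ R ∉ 𝔞, R.totalDegree ≤ K * N ∧ ∀ (H : ℝ) (Gd : ℕ → (Fin m → ℂ) → Prop) (O : ℕ → Subring ℂ)
          (ω : Fin m → ℂ), 0 ≤ H → (∀ p, p.Prime → IsPl p (O p) ∧ ∀ ω, Gd p ω → GdO 𝓕 p (O p) ω) →
          (∀ i, ∃ P : Polynomial ℤ, Orb P ∧ Real.log (mm P) ≤ P.natDegree * H ∧ Polynomial.aeval (ω i) P = 0) →
          (∀ f ∈ 𝔞, aeval ω f = 0) →
          ∑ p ∈ TEs 𝓕 𝔞 g N, r p ^ 2 / 2 * (Real.log p / p) + K * (H + 1) <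
            ∑ p ∈ TEs 𝓕 𝔞 g N, r p * rho (Gd p) ω * (Real.log p / p) →
          aeval ω R = 0) ∧
      ∀ (N : ℕ) (H : ℝ), 1 ≤ N → 0 ≤ H →
        ∃ R ∉ 𝔞, R.totalDegree ≤ K * N ∧ ∀ (Gd : ℕ → (Fin m → ℂ) → Prop) (O : ℕ → Subring ℂ)
          (ω : Fin m → ℂ), (∀ p, p.Prime → IsPl p (O p) ∧ ∀ ω, Gd p ω → GdO 𝓕 p (O p) ω) →
          (∀ i, ∃ P : Polynomial ℤ, Orb P ∧ Real.log (mm P) ≤ P.natDegree * H ∧ Polynomial.aeval (ω i) P = 0) →
          (∀ f ∈ 𝔞, aeval ω f = 0) → aeval ω R ≠ 0 →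
          ∑ p ∈ TEs 𝓕 𝔞 g N, rho (Gd p) ω * (Real.log p / p) ≤ K * Real.sqrt ((H + 1) * (1 + Real.log N)) := by
  classical
  obtain ⟨g, hg, C₂, K, hC₂, hstep⟩ := stepT h𝓕 hp h0
  obtain ⟨c₁, hc₁, hmer⟩ := Pool.Agent.H446.AP.mertens
  obtain ⟨K', hK'⟩ := exists_nat_ge (max (K : ℝ) (C₂ + (1 + c₁)))
  have hKK : K ≤ K' := by exact_mod_cast (le_max_left _ _).trans hK'
  have hCK : C₂ + (1 + c₁) ≤ K' := (le_max_right _ _).trans hK'
  have hS : ∀ N : ℕ, 1 ≤ N → ∑ p ∈ TEs 𝓕 𝔞 g N, Real.log p / (p : ℝ) ≤ (1 + c₁) * (1 + Real.log N) := by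
    intro N hN
    have hN' : (1 : ℝ) ≤ N := by exact_mod_cast hN
    have h1 : ∑ p ∈ TEs 𝓕 𝔞 g N, Real.log p / (p : ℝ) ≤ ∑ p ∈ Pool.Agent.H446.AP.pr N, Real.log p / (p : ℝ) := by
      refine Finset.sum_le_sum_of_subset_of_nonneg (fun p hp => ?_) fun p _ _ => log_div_nonneg p
      rw [Pool.Agent.H446.AP.mem_pr (Nat.cast_nonneg N)]
      obtain ⟨h1, h2, -⟩ := mem_TEs.1 hp
      exact ⟨h1, by exact_mod_cast h2⟩
    have h2 := (hmer N hN').2
    have h3 : 0 ≤ Real.log N := Real.log_nonneg hN'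
    nlinarith
  refine ⟨g, hg, K', fun N r hN hr => ?_, fun N H hN hH => ?_⟩
  · obtain ⟨R, hR, hdeg, hall⟩ := hstep (TEs 𝓕 𝔞 g N) N r hN (fun p hp => mem_TEs.1 hp) fun p _ => hr p
    refine ⟨R, hR, hdeg.trans (Nat.mul_le_mul_right _ hKK), fun H Gd O ω hH hO hω hz hlt => ?_⟩
    refine hall H Gd O ω hH (fun p hp => hO p (mem_TEs.1 hp).1) hω hz (lt_of_le_of_lt ?_ hlt)
    have h1 : C₂ * (H + 1) ≤ K' * (H + 1) := mul_le_mul_of_nonneg_right (by linarith) (by linarith)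
    linarith
  · have hN' : (1 : ℝ) ≤ N := by exact_mod_cast hN
    have hW : 1 ≤ 1 + Real.log N := by linarith [Real.log_nonneg hN']
    set W : ℝ := 1 + Real.log N with hWdef
    set a : ℝ := H + 1 with ha
    have ha1 : 1 ≤ a := by linarith
    have hS' := hS N hN
    rw [← hWdef] at hS'
    set S := ∑ p ∈ TEs 𝓕 𝔞 g N, Real.log p / (p : ℝ) with hSdef
    by_cases haW : W ≤ a
    · refine ⟨1, fun h => hp.ne_top ((Ideal.eq_top_iff_one _).2 h), ?_, fun Gd O ω hO hω hz _ => ?_⟩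
      · rw [totalDegree_one]
        exact Nat.zero_le _
      · choose P hP using hω
        have halg : ∀ i, IsAlgebraic ℚ (ω i) := fun i => algebraic_of (hP i).1 (hP i).2.2
        have h1 : ∑ p ∈ TEs 𝓕 𝔞 g N, rho (Gd p) ω * (Real.log p / p) ≤ S := by
          refine Finset.sum_le_sum fun p _ => ?_
          exact mul_le_of_le_one_left (log_div_nonneg p) (rho_le halg)
        have h2 : W ≤ Real.sqrt (a * W) := by
          refine Real.le_sqrt_of_sq_le ?_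
          nlinarith
        have h3 : (1 + c₁) * W ≤ K' * Real.sqrt (a * W) := by
          refine mul_le_mul (by linarith) h2 (by linarith) (by positivity)
        linarith
    · push Not at haW
      have haW' : 0 < a / W := by positivity
      set r := Real.sqrt (a / W) with hr
      have hr0 : 0 < r := Real.sqrt_pos.2 haW'
      have hr1 : r ≤ 1 := by
        refine Real.sqrt_le_one.2 ?_
        rw [div_le_one (by linarith)]
        exact haW.le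
      obtain ⟨R, hR, hdeg, hall⟩ := hstep (TEs 𝓕 𝔞 g N) N (fun _ => r) hN (fun p hp => mem_TEs.1 hp)
        fun p _ => ⟨hr0.le, hr1⟩
      refine ⟨R, hR, hdeg.trans (Nat.mul_le_mul_right _ hKK), fun Gd O ω hO hω hz hne => ?_⟩
      have h1 : ¬ (∑ p ∈ TEs 𝓕 𝔞 g N, r ^ 2 / 2 * (Real.log p / p) + C₂ * (H + 1) <
          ∑ p ∈ TEs 𝓕 𝔞 g N, r * rho (Gd p) ω * (Real.log p / p)) := fun hlt =>
        hne (hall H Gd O ω hH (fun p hp => hO p (mem_TEs.1 hp).1) hω hz hlt)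
      push Not at h1
      have h2 : ∑ p ∈ TEs 𝓕 𝔞 g N, r * rho (Gd p) ω * (Real.log p / p) =
          r * ∑ p ∈ TEs 𝓕 𝔞 g N, rho (Gd p) ω * (Real.log p / p) := by
        rw [Finset.mul_sum]
        exact Finset.sum_congr rfl fun p _ => by ring
      rw [h2, ← Finset.mul_sum, ← hSdef, ← ha] at h1
      set G := ∑ p ∈ TEs 𝓕 𝔞 g N, rho (Gd p) ω * (Real.log p / p) with hG
      -- `r * √(a W) = a`
      have h3 : r * Real.sqrt (a * W) = a := by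
        rw [hr, ← Real.sqrt_mul haW'.le]
        have h4 : a / W * (a * W) = a ^ 2 := by
          field_simp
        rw [h4, Real.sqrt_sq (by linarith)]
      have h4 : r ^ 2 * W = a := by
        rw [hr, Real.sq_sqrt haW'.le]
        field_simp
      have h5 : r * G ≤ r * (K' * Real.sqrt (a * W)) := by
        have h6 : r * (K' * Real.sqrt (a * W)) = K' * a := by
          rw [mul_left_comm, h3]
        rw [h6]
        have h7 : r ^ 2 / 2 * S ≤ (1 + c₁) * a := by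
          have h8 : r ^ 2 / 2 * S ≤ r ^ 2 / 2 * ((1 + c₁) * W) := mul_le_mul_of_nonneg_left hS' (by positivity)
          have h9 : r ^ 2 / 2 * ((1 + c₁) * W) = (1 + c₁) / 2 * a := by
            rw [← h4]
            ring
          have h10 : 0 ≤ (1 + c₁) / 2 * a := by positivity
          linarith
        have h8 : (C₂ + (1 + c₁)) * a ≤ K' * a := mul_le_mul_of_nonneg_right hCK (by linarith)
        linarith
      exact le_of_mul_le_mul_left h5 hr0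

end Pool.Agent.H446.AP13
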