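import Pool.Agent.H446.AP13.W6

/-!
# The totally exceptional primes of a family of connections
-/

set_option autoImplicit false

namespace Pool.Agent.H446.AP13

open Finset MvPolynomial TensorProduct
open Pool.Agent.H446.AP4 (Phi Phi_tmul)
open Pool.Agent.H446.AP10
open Pool.Agent.H446.AP11

variable {m : ℕ}

section gen

variable {𝒪 : Type*} [CommRing 𝒪] {r n : ℕ}

lemma Phi_mul {p : ℕ} (lam : 𝒪 →ₗ[ℤ] ZMod p) {R : Type*} [CommRing R] [CharP R p] (a : R) (t : 𝒪 ⊗[ℤ] R) :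
    Phi p lam R ((1 ⊗ₜ[ℤ] a) * t) = a * Phi p lam R t := by
  induction t using TensorProduct.induction_on with
  | zero => rw [mul_zero, map_zero, mul_zero]
  | add x y hx hy => rw [mul_add, map_add, hx, hy, map_add, mul_add]
  | tmul x y =>
    rw [Algebra.TensorProduct.tmul_mul_tmul, one_mul, Phi_tmul, Phi_tmul]
    ring

/-- The functions which annihilate the curvatures. -/
lemma ann_iff (δ : Fin n → Derivation ℤ 𝒪 𝒪) (Δ : MvPolynomial (Fin m) 𝒪)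
    (B : Fin n → Matrix (Fin r) (Fin r) (MvPolynomial (Fin m) 𝒪)) (q : ℕ) {p : ℕ} [hp : Fact p.Prime] {R : Type*}
    [CommRing R] [CharP R p] (z : Fin m → R) (a : R) :
    (∀ i j l, (1 ⊗ₜ[ℤ] a) * (cM (δ i) Δ (B i) z p ^ q) j l = 0) ↔ ∀ F ∈ FM δ Δ B q p, a * aeval z F = 0 := by
  constructor
  · rintro h F ⟨lam, i, j, l, rfl⟩
    have h1 := h i j l
    rw [cM_pow, Matrix.map_apply] at h1
    rw [← Phi_evM, ← Phi_mul, h1, map_zero]
  · intro h i j l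
    rw [cM_pow, Matrix.map_apply]
    refine sepT _ fun lam => ?_
    rw [Phi_mul, Phi_evM]
    exact h _ ⟨lam, i, j, l, rfl⟩

/-- The description of the totally exceptional primes with a ring. -/
lemma TE_iff (δ : Fin n → Derivation ℤ 𝒪 𝒪) (Δ : MvPolynomial (Fin m) 𝒪)
    (B : Fin n → Matrix (Fin r) (Fin r) (MvPolynomial (Fin m) 𝒪)) (q : ℕ) {p : ℕ} (hp : p.Prime)
    {𝔞 : Ideal (MvPolynomial (Fin m) ℤ)} {g : MvPolynomial (Fin m) ℤ} (h1 : 1 ∉ Jp 𝔞 g p) {k : Type*} [CommRing k]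
    {ψ : MvPolynomial (Fin m) ℤ →+* k} (hs : Function.Surjective ψ) (hψ : ∀ f, ψ f = 0 ↔ f ∈ Jp 𝔞 g p) :
    TE (FM δ Δ B q) 𝔞 g p ↔
      ∀ a : k, (∀ i j l, (1 ⊗ₜ[ℤ] a) * (cM (δ i) Δ (B i) (fun i => ψ (X i)) p ^ q) j l = 0) → a = 0 := by
  have hfact : Fact p.Prime := ⟨hp⟩
  have hnt : Nontrivial k := by
    refine ⟨⟨1, 0, fun h => h1 ?_⟩⟩
    rw [← hψ, map_one, h]
  have hch : CharP k p := by
    rw [CharP.charP_iff_prime_eq_zero hp]
    have h2 := (hψ _).2 (p_mem_Jp (𝔞 := 𝔞) (g := g) (p := p) 1)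
    rwa [mul_one, map_natCast] at h2
  have key : ∀ b : MvPolynomial (Fin m) ℤ, (∀ i j l, (1 ⊗ₜ[ℤ] ψ b) * (cM (δ i) Δ (B i) (fun i => ψ (X i)) p ^ q) j l = 0) ↔
      ∀ F ∈ FM δ Δ B q p, b * F ∈ Jp 𝔞 g p := by
    intro b
    rw [ann_iff δ Δ B q]
    refine forall₂_congr fun F _ => ?_
    rw [psi_aeval, ← map_mul, hψ]
  constructor
  · rintro ⟨-, h2⟩ a ha
    obtain ⟨b, rfl⟩ := hs a
    rw [hψ]
    exact h2 b ((key b).1 ha)
  · intro h2
    refine ⟨h1, fun b hb => ?_⟩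
    rw [← hψ]
    exact h2 _ ((key b).2 hb)

end gen

/-- If the reduction is irreducible and reduced, then the exceptional primes are totally exceptional. -/
lemma TE_iff_Non {𝓕 : ℕ → Set (MvPolynomial (Fin m) ℤ)} {𝔞 : Ideal (MvPolynomial (Fin m) ℤ)}
    {g : MvPolynomial (Fin m) ℤ} {p : ℕ} (hp : p.Prime) (hJ : (Jp 𝔞 g p).IsPrime) : TE 𝓕 𝔞 g p ↔ Non 𝓕 𝔞 g p := by
  have hmem : ∀ (k : Type) [Field k] [CharP k p] (z : Fin m → k), (∀ f ∈ 𝔞, aeval z f = 0) → aeval z g ≠ 0 →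
      ∀ f ∈ Jp 𝔞 g p, aeval z f = 0 := by
    intro k _ _ z hz hg f hf
    obtain ⟨N, hN⟩ := hf
    obtain ⟨α, hα, β, hβ, hαβ⟩ := Submodule.mem_sup.1 hN
    obtain ⟨f', hf'⟩ := Ideal.mem_span_singleton.1 hβ
    have h1 : aeval z (g ^ N * f) = 0 := by
      rw [← hαβ, hf', map_add, hz α hα, map_mul, map_natCast, CharP.cast_eq_zero, zero_mul, add_zero]
    rw [map_mul, map_pow] at h1
    exact (mul_eq_zero.1 h1).resolve_left (pow_ne_zero _ hg)
  constructor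
  · rintro ⟨h1, h2⟩
    obtain ⟨F, hF, hF'⟩ : ∃ F ∈ 𝓕 p, F ∉ Jp 𝔞 g p := by
      by_contra hall
      push Not at hall
      exact h1 (h2 1 fun F hF => by rw [one_mul]; exact hall F hF)
    have hdom : IsDomain (MvPolynomial (Fin m) ℤ ⧸ Jp 𝔞 g p) := Ideal.Quotient.isDomain _
    obtain ⟨K, _, φ, hφ⟩ : ∃ (K : Type) (_ : Field K) (φ : MvPolynomial (Fin m) ℤ →+* K), ∀ f, φ f = 0 ↔
        f ∈ Jp 𝔞 g p := by
      refine ⟨_, inferInstance, (algebraMap (MvPolynomial (Fin m) ℤ ⧸ Jp 𝔞 g p)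
        (FractionRing (MvPolynomial (Fin m) ℤ ⧸ Jp 𝔞 g p))).comp (Ideal.Quotient.mk (Jp 𝔞 g p)), fun f => ?_⟩
      rw [← Ideal.Quotient.eq_zero_iff_mem]
      show algebraMap (MvPolynomial (Fin m) ℤ ⧸ Jp 𝔞 g p) (FractionRing (MvPolynomial (Fin m) ℤ ⧸ Jp 𝔞 g p))
        (Ideal.Quotient.mk (Jp 𝔞 g p) f) = 0 ↔ _
      rw [map_eq_zero_iff _ (IsFractionRing.injective (MvPolynomial (Fin m) ℤ ⧸ Jp 𝔞 g p)
        (FractionRing (MvPolynomial (Fin m) ℤ ⧸ Jp 𝔞 g p)))]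
    have hch : CharP K p := by
      rw [CharP.charP_iff_prime_eq_zero hp]
      have h2 := (hφ _).2 (p_mem_Jp (𝔞 := 𝔞) (g := g) (p := p) 1)
      rwa [mul_one, map_natCast] at h2
    refine ⟨K, inferInstance, hch, fun i => φ (X i), fun f hf => ?_, fun hg => ?_, F, hF, fun h => ?_⟩
    · rw [psi_aeval, hφ]
      exact le_Jp hf
    · rw [psi_aeval, hφ] at hg
      refine h1 (Jp_sat (N := 1) ?_)
      rw [pow_one, mul_one]
      exact hg
    · rw [psi_aeval, hφ] at h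
      exact hF' h
  · rintro ⟨k, _, _, z, hz, hg, F, hF, hF'⟩
    exact TE_of_prime hJ ⟨F, hF, fun h => hF' (hmem k z hz hg F h)⟩

/-- The reductions of the affine space are irreducible. -/
lemma Jp_bot_isPrime {g : MvPolynomial (Fin m) ℤ} {p : ℕ} (hp : p.Prime)
    (hg : MvPolynomial.map (Int.castRingHom (ZMod p)) g ≠ 0) : (Jp ⊥ g p).IsPrime := by
  have hfact : Fact p.Prime := ⟨hp⟩
  have hmem : ∀ f : MvPolynomial (Fin m) ℤ, f ∈ Jp ⊥ g p ↔ MvPolynomial.map (Int.castRingHom (ZMod p)) f = 0 := by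
    intro f
    have h2 : (C ((p : ℕ) : ℤ) : MvPolynomial (Fin m) ℤ) = ((p : ℕ) : MvPolynomial (Fin m) ℤ) := by
      rw [map_natCast]
    constructor
    · rintro ⟨N, hN⟩
      rw [bot_sup_eq, Ideal.mem_span_singleton, ← h2, MvPolynomial.C_dvd_iff_zmod, map_mul, map_pow] at hN
      exact (mul_eq_zero.1 hN).resolve_left (pow_ne_zero _ hg)
    · intro h
      refine ⟨0, ?_⟩
      rw [bot_sup_eq, Ideal.mem_span_singleton, ← h2, MvPolynomial.C_dvd_iff_zmod, pow_zero, one_mul]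
      exact h
  refine ⟨fun h => ?_, fun {a b} hab => ?_⟩
  · have h1 := (hmem 1).1 (by rw [h]; exact Submodule.mem_top)
    rw [map_one] at h1
    exact one_ne_zero h1
  · rw [hmem, map_mul] at hab
    rw [hmem, hmem]
    exact mul_eq_zero.1 hab

end Pool.Agent.H446.AP13
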